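import Mathlib
import Pool.Agent.H96.Rg3

set_option autoImplicit false

namespace Pool.Agent.Results.MP_c23f48_an.Ridge

open Complex Finset MeasureTheory Pool.Agent.H96.Rg
open scoped BoundedContinuousFunction ENNReal

/-- the Bernstein space of the closed ball of radius `r`: bounded continuous functions whose
distributional Fourier transform vanishes on every Schwartz function supported off the ball -/
def InB {n : ℕ} (r : ℝ) (f : EuclideanSpace ℝ (Fin n) → ℂ) : Prop :=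
  Continuous f ∧ (∃ C : ℝ, ∀ x, ‖f x‖ ≤ C) ∧
  ∀ φ : SchwartzMap (EuclideanSpace ℝ (Fin n)) ℂ, Disjoint (tsupport φ) (Metric.closedBall 0 r) →
    ∫ x, f x * ∫ ξ, φ ξ * Complex.exp (-(Complex.I * (inner ℝ x ξ : ℝ))) = 0

/-- `D_k = (1/i) ∂/∂x_k` -/
noncomputable def Dk {n : ℕ} (k : Fin n) (f : EuclideanSpace ℝ (Fin n) → ℂ)
    (x : EuclideanSpace ℝ (Fin n)) : ℂ :=
  -Complex.I * fderiv ℝ f x (EuclideanSpace.single k 1)

/-- `D^α = D_1^{α_1} ⋯ D_n^{α_n}` -/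
noncomputable def Dpow {n : ℕ} (α : Fin n →₀ ℕ) (f : EuclideanSpace ℝ (Fin n) → ℂ) :
    EuclideanSpace ℝ (Fin n) → ℂ :=
  (List.finRange n).foldr (fun k g => (Dk k)^[α k] g) f

/-- `τ(D) = ∑ c_α D^α` -/
noncomputable def tauD {n : ℕ} (τ : MvPolynomial (Fin n) ℂ) (f : EuclideanSpace ℝ (Fin n) → ℂ)
    (x : EuclideanSpace ℝ (Fin n)) : ℂ :=
  ∑ α ∈ τ.support, τ.coeff α * Dpow α f x

/-- the operator norm of `τ(D)` on the Bernstein space of the ball of radius `r` -/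
noncomputable def opNorm {n : ℕ} (τ : MvPolynomial (Fin n) ℂ) (r : ℝ) : ℝ≥0∞ :=
  ⨆ (f : EuclideanSpace ℝ (Fin n) → ℂ) (_ : InB r f) (_ : ∀ x, ‖f x‖ ≤ 1)
    (x : EuclideanSpace ℝ (Fin n)), ‖tauD τ f x‖ₑ

/-- the maximum of `|τ|` on the ball of radius `r` -/
noncomputable def symMax {n : ℕ} (τ : MvPolynomial (Fin n) ℂ) (r : ℝ) : ℝ≥0∞ :=
  ⨆ (ξ : EuclideanSpace ℝ (Fin n)) (_ : ‖ξ‖ ≤ r), ‖MvPolynomial.eval (fun k => (ξ k : ℂ)) τ‖ₑ

section
variable {n : ℕ} {ι : Type} (S : Finset ι) (η : ι → EuclideanSpace ℝ (Fin n))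

theorem Dk_sum (k : Fin n) (a : ι → ℂ) : Dk k (fun x => ∑ i ∈ S, a i * ex (η i) x)
    = fun x => ∑ i ∈ S, (a i * (η i k : ℂ)) * ex (η i) x := by
  funext x
  have h : ∀ i, HasFDerivAt (fun x => a i * ex (η i) x)
      (a i • ex (η i) x • (Complex.I • Complex.ofRealCLM.comp (innerSL ℝ (η i)))) x := by
    intro i
    have h1 : HasFDerivAt (fun x : EuclideanSpace ℝ (Fin n) => ((inner ℝ x (η i) : ℝ) : ℂ) * I)
        (Complex.I • Complex.ofRealCLM.comp (innerSL ℝ (η i))) x := by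
      have := (Complex.I • Complex.ofRealCLM.comp (innerSL ℝ (η i))).hasFDerivAt (x := x)
      refine this.congr_of_eventuallyEq (Filter.Eventually.of_forall fun y => ?_)
      simp [real_inner_comm, mul_comm]
    exact h1.cexp.const_mul (a i)
  unfold Dk
  rw [(HasFDerivAt.fun_sum fun i _ => h i).fderiv, _root_.sum_apply, mul_sum]
  refine sum_congr rfl fun i _ => ?_
  simp [EuclideanSpace.inner_single_right]
  linear_combination (-(a i * ex (η i) x * (η i k : ℂ))) * Complex.I_mul_I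

theorem Dk_iter (k : Fin n) (m : ℕ) : ∀ a : ι → ℂ, (Dk k)^[m] (fun x => ∑ i ∈ S, a i * ex (η i) x)
    = fun x => ∑ i ∈ S, (a i * (η i k : ℂ) ^ m) * ex (η i) x := by
  induction m with
  | zero => intro a; simp
  | succ m ih =>
    intro a
    rw [Function.iterate_succ_apply, Dk_sum, ih]
    simp only [pow_succ', mul_assoc]

theorem fold_sum (α : Fin n →₀ ℕ) (a : ι → ℂ) (L : List (Fin n)) :
    L.foldr (fun k g => (Dk k)^[α k] g) (fun x => ∑ i ∈ S, a i * ex (η i) x)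
    = fun x => ∑ i ∈ S, (a i * (L.map fun k => (η i k : ℂ) ^ α k).prod) * ex (η i) x := by
  induction L with
  | nil => simp
  | cons k L ih =>
    rw [List.foldr_cons, ih, Dk_iter]
    funext x
    refine sum_congr rfl fun i _ => ?_
    rw [List.map_cons, List.prod_cons]; ring

theorem tauD_sum (τ : MvPolynomial (Fin n) ℂ) (a : ι → ℂ) :
    tauD τ (fun x => ∑ i ∈ S, a i * ex (η i) x) 0 = ∑ i ∈ S, a i * ev τ (η i) := by
  unfold tauD Dpow
  simp only [fold_sum, ← Fin.prod_univ_def, ev, MvPolynomial.eval_eq', mul_sum]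
  rw [sum_comm]
  refine sum_congr rfl fun i _ => sum_congr rfl fun α _ => ?_
  simp [ex_apply]; ring

theorem inB_sum {r : ℝ} (hη : ∀ i, ‖η i‖ ≤ r) (a : ι → ℂ) :
    InB r (fun x => ∑ i ∈ S, a i * ex (η i) x) := by
  refine ⟨by fun_prop, ⟨∑ i ∈ S, ‖a i‖, fun x => (norm_sum_le _ _).trans (sum_le_sum fun i _ => ?_)⟩,
    fun φ hφ => ?_⟩
  · rw [norm_mul, ex_apply, Complex.norm_exp_ofReal_mul_I, mul_one]
  · simp only [sum_mul, mul_assoc]
    rw [integral_finsetSum _ fun i _ => (four φ (η i)).1.const_mul _]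
    refine sum_eq_zero fun i _ => ?_
    rw [integral_const_mul, (four φ (η i)).2, mul_zero]
    exact image_eq_zero_of_notMem_tsupport fun h =>
      Set.disjoint_left.1 hφ h (by simpa using hη i)

end

theorem result (n : ℕ) (τ : MvPolynomial (Fin n) ℂ) (r : ℝ) (hr : 0 < r)
    (h : opNorm τ r = symMax τ r) :
    ∃ (a : EuclideanSpace ℝ (Fin n)) (ρ : Polynomial ℂ), ∀ ξ : EuclideanSpace ℝ (Fin n),
      MvPolynomial.eval (fun k => (ξ k : ℂ)) τ = ρ.eval ((inner ℝ a ξ : ℝ) : ℂ) := by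
  obtain ⟨ξ0, h0, hmax⟩ := (isCompact_closedBall (0 : EuclideanSpace ℝ (Fin n)) r).exists_isMaxOn
    ⟨0, by simpa using hr.le⟩ (ev_cont τ).norm.continuousOn
  have hm : ∀ ξ, ‖ξ‖ ≤ r → ‖ev τ ξ‖ ≤ ‖ev τ ξ0‖ := fun ξ hξ => hmax (by simpa using hξ)
  have hs : symMax τ r ≤ ‖ev τ ξ0‖ₑ := iSup₂_le fun ξ hξ => enorm_le_iff_norm_le.2 (hm ξ hξ)
  refine ridge τ hr (by simpa using h0) hm fun a => ?_
  set N := ‖∑ ξ ∈ a.support, a ξ • ex ξ.1‖ with hN
  have N0 : 0 ≤ N := norm_nonneg _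
  have key : ∀ δ : ℝ, 0 < δ → ‖∑ ξ ∈ a.support, a ξ * ev τ ξ‖ ≤ ‖ev τ ξ0‖ * (N + δ) := by
    intro δ hδ
    have c0 : 0 < N + δ := by linarith
    have hin := inB_sum a.support (fun ξ => ξ.1) (r := r) (fun ξ => mem_closedBall_zero_iff.1 ξ.2)
      (fun ξ => (((N + δ)⁻¹ : ℝ) : ℂ) * a ξ)
    have hle : ∀ x, ‖∑ ξ ∈ a.support, (((N + δ)⁻¹ : ℝ) : ℂ) * a ξ * ex ξ.1 x‖ ≤ 1 := by
      intro x
      have h1 := (∑ ξ ∈ a.support, a ξ • ex ξ.1).norm_coe_le_norm x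
      simp only [BoundedContinuousFunction.coe_sum, Finset.sum_apply,
        BoundedContinuousFunction.coe_smul, smul_eq_mul] at h1
      simp only [mul_assoc]
      rw [← mul_sum, norm_mul, Complex.norm_real, Real.norm_eq_abs, abs_of_pos (by positivity),
        inv_mul_le_iff₀ c0]
      linarith
    have h2 : ‖tauD τ (fun x => ∑ ξ ∈ a.support, (((N + δ)⁻¹ : ℝ) : ℂ) * a ξ * ex ξ.1 x) 0‖ₑ
        ≤ opNorm τ r :=
      le_iSup_of_le _ (le_iSup_of_le hin (le_iSup_of_le hle (le_iSup_of_le 0 le_rfl)))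
    have h3 := enorm_le_iff_norm_le.1 (h2.trans (h.le.trans hs))
    rw [tauD_sum] at h3
    simp only [mul_assoc] at h3
    rw [← mul_sum, norm_mul, Complex.norm_real, Real.norm_eq_abs, abs_of_pos (by positivity),
      inv_mul_le_iff₀ c0] at h3
    linarith
  apply le_of_forall_pos_le_add
  intro ε hε
  have h4 := key (ε / (‖ev τ ξ0‖ + 1)) (by positivity)
  have h5 : ‖ev τ ξ0‖ * (ε / (‖ev τ ξ0‖ + 1)) ≤ ε := by
    rw [← mul_div_assoc, div_le_iff₀ (by positivity)]; nlinarith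
  linarith

end Pool.Agent.Results.MP_c23f48_an.Ridge
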